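import Pool.Agent.ZPK.StmtsD
import Pool.Agent.Helper13_ZP3.RAYa

/-!
Squad ZPK, row CFG: counting the failures of `FI`.
-/

set_option autoImplicit false

namespace Pool.Agent.ZPK.H81

open Pool.Agent.ZPT Pool.Agent.ZP3 Pool.Agent.ZP3.H13

section

variable {K : Type} [NormedField K] [CharZero K]

lemma cfg_ndvd {p : ℕ} (hp : p.Prime) (hK : Ext p K) {z : ℤ} (h : (p : ℤ) ∣ z) :
    ‖(z : K)‖ < 1 := by
  have := Fact.mk hp
  have h1 := hK (z : ℚ)
  rw [Rat.cast_intCast] at h1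
  rw [h1]
  have h2 := (padicNorm.int_lt_one_iff (p := p) z).mpr h
  exact_mod_cast h2

lemma cfg_nndvd {p : ℕ} (hp : p.Prime) (hK : Ext p K) {z : ℤ} (h : ¬ (p : ℤ) ∣ z) :
    ‖(z : K)‖ = 1 := by
  have := Fact.mk hp
  have h1 := hK (z : ℚ)
  rw [Rat.cast_intCast] at h1
  rw [h1]
  have h2 := (padicNorm.int_eq_one_iff (p := p) z).mpr h
  exact_mod_cast h2

end

lemma cfg_box (p n m : ℕ) :
    {x : Fin n → Fin m → ℤ | ∀ i r, 0 ≤ x i r ∧ x i r < (p : ℤ) ^ 2}.Finite := by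
  have h : {x : Fin n → Fin m → ℤ | ∀ i r, 0 ≤ x i r ∧ x i r < (p : ℤ) ^ 2} =
      Set.pi Set.univ (fun _ => Set.pi Set.univ (fun _ => Set.Ico (0 : ℤ) ((p : ℤ) ^ 2))) := by
    ext x
    simp [Set.mem_pi]
  rw [h]
  exact Set.Finite.pi fun _ => Set.Finite.pi fun _ => Set.finite_Ico _ _

/-- The set of the matrices for one triple. -/
def cfgE {K : Type} [NormedField K] {n m : ℕ} (S : Set (Fin n)) (G : Set (Fin n → Fin m → ℤ))
    (lam : (Fin n → Fin m → ℤ) → Fin n → K) (c d : Fin n → ℤ) (z : ℤ) :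
    Set (Fin n → Fin m → ℤ) :=
  {a | a ∈ G ∧ (∀ i, i ∉ S → c i = 0 ∧ d i = 0) ∧ (∃ i j, c i * d j ≠ c j * d i) ∧
    ‖∑ i, ((c i - z * d i : ℤ) : K) * lam a i‖ < 1}

lemma cfg_empty (p n m : ℕ) : (Rs p (∅ : Set (Fin n → Fin m → ℤ))).ncard * p ^ 2 ≤
    p ^ (2 * (n * m)) := by
  have h : Rs p (∅ : Set (Fin n → Fin m → ℤ)) = ∅ := by
    ext x
    simp [Rs]
  rw [h, Set.ncard_empty, zero_mul]
  exact Nat.zero_le _

lemma cfg_one (hCTA : CtaStmt) {p : ℕ} (hp : p.Prime) (hp11 : 11 ≤ p) {K : Type} [NormedField K]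
    [CharZero K] [IsUltrametricDist K] (hK : Ext p K) {n m : ℕ} (β : Fin m → K) (hβ : Bas β)
    (S : Set (Fin n)) (v : Option (Fin n)) (G : Set (Fin n → Fin m → ℤ))
    (lam : (Fin n → Fin m → ℤ) → Fin n → K)
    (h1 : ∀ a ∈ G, ∀ i ∈ S, ‖lam a i‖ ≤ 1) (h2 : ∀ a ∈ G, ∀ i ∈ S, v = some i → ‖lam a i‖ = 1)
    (h3 : ∀ i ∈ S, v ≠ some i → ∀ a ∈ G, ∀ a' ∈ G,
      (∀ k, k ≠ i → ∀ r, (p : ℤ) ^ 2 ∣ a k r - a' k r) →
      (∀ k ∈ S, k ≠ i → ‖lam a k - lam a' k‖ < 1) ∧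
      (‖lam a i - lam a' i‖ < 1 → ‖sv β (a i) - sv β (a' i)‖ < 1))
    (c d : Fin n → ℤ) (hcd : ∀ i, |c i| ≤ 2 ∧ |d i| ≤ 2) (z : ℤ) :
    (Rs p (cfgE S G lam c d z)).ncard * p ^ 2 ≤ p ^ (2 * (n * m)) := by
  classical
  by_cases hne : (cfgE S G lam c d z) = ∅
  · rw [hne]
    exact cfg_empty p n m
  obtain ⟨a₀, ha₀⟩ := Set.nonempty_iff_ne_empty.mpr hne
  obtain ⟨ha₀G, hsupp, ⟨i1, j1, hij⟩, hlt₀⟩ := ha₀
  have hterm : ∀ a ∈ G, ∀ k, (p : ℤ) ∣ c k - z * d k →
      ‖((c k - z * d k : ℤ) : K) * lam a k‖ < 1 := by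
    intro a ha k hk
    by_cases hkS : k ∈ S
    · rw [norm_mul]
      calc ‖((c k - z * d k : ℤ) : K)‖ * ‖lam a k‖ ≤ ‖((c k - z * d k : ℤ) : K)‖ * 1 :=
            mul_le_mul_of_nonneg_left (h1 a ha k hkS) (norm_nonneg _)
        _ < 1 := by rw [mul_one]; exact cfg_ndvd hp hK hk
    · rw [(hsupp k hkS).1, (hsupp k hkS).2]
      simp
  by_cases h : ∃ i, v ≠ some i ∧ ¬ (p : ℤ) ∣ c i - z * d i
  · obtain ⟨i, hvi, hpi⟩ := h
    have hiS : i ∈ S := by
      by_contra hiS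
      apply hpi
      rw [(hsupp i hiS).1, (hsupp i hiS).2]
      simp
    refine hCTA p hp K hK n m β hβ i _ ?_
    intro a ha a' ha' hcong
    obtain ⟨h4, h5⟩ := h3 i hiS hvi a ha.1 a' ha'.1 hcong
    apply h5
    have e1 := Finset.add_sum_erase Finset.univ
      (fun k => ((c k - z * d k : ℤ) : K) * lam a k) (Finset.mem_univ i)
    have e2 := Finset.add_sum_erase Finset.univ
      (fun k => ((c k - z * d k : ℤ) : K) * lam a' k) (Finset.mem_univ i)
    have e3 : ((c i - z * d i : ℤ) : K) * (lam a i - lam a' i) =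
        ((∑ k, ((c k - z * d k : ℤ) : K) * lam a k) -
          (∑ k, ((c k - z * d k : ℤ) : K) * lam a' k)) -
        ∑ k ∈ Finset.univ.erase i, ((c k - z * d k : ℤ) : K) * (lam a k - lam a' k) := by
      rw [← e1, ← e2]
      simp only [mul_sub, Finset.sum_sub_distrib]
      ring
    have e4 : ‖((c i - z * d i : ℤ) : K) * (lam a i - lam a' i)‖ < 1 := by
      rw [e3]
      refine uslt (uslt ha.2.2.2 ha'.2.2.2) (sumlt _ _ ?_)
      intro k hk
      have hki : k ≠ i := Finset.ne_of_mem_erase hk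
      by_cases hkS : k ∈ S
      · exact mlt (IsUltrametricDist.norm_intCast_le_one K _) (h4 k hkS hki)
      · rw [(hsupp k hkS).1, (hsupp k hkS).2]
        simp
    rwa [norm_mul, cfg_nndvd hp hK hpi, one_mul] at e4
  · exfalso
    push Not at h
    by_cases hall : ∀ i, (p : ℤ) ∣ c i - z * d i
    · have e1 : (p : ℤ) ∣ c i1 * d j1 - c j1 * d i1 := by
        have e2 : c i1 * d j1 - c j1 * d i1 =
            (c i1 - z * d i1) * d j1 - (c j1 - z * d j1) * d i1 := by ring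
        rw [e2]
        exact dvd_sub (Dvd.dvd.mul_right (hall i1) _) (Dvd.dvd.mul_right (hall j1) _)
      have e3 : |c i1 * d j1 - c j1 * d i1| < (p : ℤ) := by
        have a1 := (hcd i1).1
        have a2 := (hcd i1).2
        have a3 := (hcd j1).1
        have a4 := (hcd j1).2
        have b1 : |c i1 * d j1| ≤ 2 * 2 := by
          rw [abs_mul]
          exact mul_le_mul a1 a4 (abs_nonneg _) (by norm_num)
        have b2 : |c j1 * d i1| ≤ 2 * 2 := by
          rw [abs_mul]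
          exact mul_le_mul a3 a2 (abs_nonneg _) (by norm_num)
        have b3 := abs_sub (c i1 * d j1) (c j1 * d i1)
        have b4 : (11 : ℤ) ≤ p := by exact_mod_cast hp11
        linarith
      have e4 := Int.eq_zero_of_abs_lt_dvd e1 e3
      exact hij (by linarith)
    · push Not at hall
      obtain ⟨i, hi⟩ := hall
      have hvi : v = some i := by
        by_contra hvi
        exact hi (h i hvi)
      have hiS : i ∈ S := by
        by_contra hiS
        apply hi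
        rw [(hsupp i hiS).1, (hsupp i hiS).2]
        simp
      have e1 := Finset.add_sum_erase Finset.univ
        (fun k => ((c k - z * d k : ℤ) : K) * lam a₀ k) (Finset.mem_univ i)
      have e2 : ((c i - z * d i : ℤ) : K) * lam a₀ i =
          (∑ k, ((c k - z * d k : ℤ) : K) * lam a₀ k) -
          ∑ k ∈ Finset.univ.erase i, ((c k - z * d k : ℤ) : K) * lam a₀ k := by
        rw [← e1]
        ring
      have e3 : ‖((c i - z * d i : ℤ) : K) * lam a₀ i‖ < 1 := by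
        rw [e2]
        refine uslt hlt₀ (sumlt _ _ ?_)
        intro k hk
        have hki : k ≠ i := Finset.ne_of_mem_erase hk
        apply hterm a₀ ha₀G k
        apply h k
        rw [hvi]
        intro h6
        exact hki (Option.some.inj h6).symm
      rw [norm_mul, cfg_nndvd hp hK hi, one_mul, h2 a₀ ha₀G i hiS hvi] at e3
      exact lt_irrefl _ e3

theorem cfg (hCTA : CtaStmt) : CfgStmt := by
  classical
  intro p hp hp11 K _ _ _ hK n m β hβ S v G lam h1 h2 h3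
  have hpZ : (0 : ℤ) < p := by exact_mod_cast hp.pos
  set T : Finset ((Fin n → ℤ) × ((Fin n → ℤ) × ℕ)) :=
    (Fintype.piFinset fun _ : Fin n => Finset.Icc (-2 : ℤ) 2) ×ˢ
      ((Fintype.piFinset fun _ : Fin n => Finset.Icc (-2 : ℤ) 2) ×ˢ Finset.range p) with hT
  have hTc : T.card = 25 ^ n * p := by
    rw [hT, Finset.card_product, Finset.card_product, Finset.card_range, Fintype.card_piFinset]
    simp only [Finset.prod_const, Finset.card_univ, Fintype.card_fin]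
    have e : (Finset.Icc (-2 : ℤ) 2).card = 5 := by decide
    rw [e, ← mul_assoc, ← mul_pow]
    norm_num
  have hsub : Rs p {a | a ∈ G ∧ ¬ FI S (lam a)} ⊆
      ⋃ τ ∈ T, Rs p (cfgE S G lam τ.1 τ.2.1 (τ.2.2 : ℤ)) := by
    rintro x ⟨hx1, a, ⟨haG, hFI⟩, hcong⟩
    unfold FI at hFI
    push Not at hFI
    obtain ⟨c, d, hcd, hne, m₀, hm₀⟩ := hFI
    have hz0 : 0 ≤ m₀ % (p : ℤ) := Int.emod_nonneg _ hpZ.ne'
    have hz1 : m₀ % (p : ℤ) < p := Int.emod_lt_of_pos _ hpZ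
    have hzn : (((m₀ % (p : ℤ)).toNat : ℕ) : ℤ) = m₀ % (p : ℤ) := Int.toNat_of_nonneg hz0
    rw [Set.mem_iUnion₂]
    refine ⟨(c, (d, (m₀ % (p : ℤ)).toNat)), ?_, hx1, a, ⟨haG, ?_, hne, ?_⟩, hcong⟩
    · rw [hT, Finset.mem_product, Finset.mem_product, Fintype.mem_piFinset, Fintype.mem_piFinset,
        Finset.mem_range]
      refine ⟨fun i => ?_, fun i => ?_, ?_⟩
      · rw [Finset.mem_Icc]
        exact abs_le.mp (hcd i).1
      · rw [Finset.mem_Icc]
        exact abs_le.mp (hcd i).2.1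
      · show (m₀ % (p : ℤ)).toNat < p
        have : (((m₀ % (p : ℤ)).toNat : ℕ) : ℤ) < (p : ℤ) := by rw [hzn]; exact hz1
        exact_mod_cast this
    · intro i hi
      exact (hcd i).2.2 hi
    · show ‖∑ i, ((c i - (((m₀ % (p : ℤ)).toNat : ℕ) : ℤ) * d i : ℤ) : K) * lam a i‖ < 1
      rw [hzn]
      have hle : ‖∑ i, ((c i - m₀ * d i : ℤ) : K) * lam a i‖ ≤ 1 := by
        refine sumle _ _ fun i _ => ?_
        by_cases hiS : i ∈ S
        · exact mle (IsUltrametricDist.norm_intCast_le_one K _) (h1 a haG i hiS)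
        · rw [((hcd i).2.2 hiS).1, ((hcd i).2.2 hiS).2]
          simp
      have hlt := lt_of_le_of_ne hle hm₀
      have e : ∑ i, ((c i - (m₀ % (p : ℤ)) * d i : ℤ) : K) * lam a i =
          ∑ i, ((c i - m₀ * d i : ℤ) : K) * lam a i +
          ∑ i, (((m₀ - m₀ % (p : ℤ)) * d i : ℤ) : K) * lam a i := by
        rw [← Finset.sum_add_distrib]
        refine Finset.sum_congr rfl fun i _ => ?_
        push_cast
        ring
      rw [e]
      refine ult hlt (sumlt _ _ fun i _ => ?_)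
      by_cases hiS : i ∈ S
      · rw [norm_mul]
        calc ‖(((m₀ - m₀ % (p : ℤ)) * d i : ℤ) : K)‖ * ‖lam a i‖ ≤
            ‖(((m₀ - m₀ % (p : ℤ)) * d i : ℤ) : K)‖ * 1 :=
              mul_le_mul_of_nonneg_left (h1 a haG i hiS) (norm_nonneg _)
          _ < 1 := by
              rw [mul_one]
              apply cfg_ndvd hp hK
              apply Dvd.dvd.mul_right
              exact Int.dvd_self_sub_emod
      · rw [((hcd i).2.2 hiS).2]
        simp
  have hfin : (⋃ τ ∈ T, Rs p (cfgE S G lam τ.1 τ.2.1 (τ.2.2 : ℤ))).Finite := by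
    refine (cfg_box p n m).subset ?_
    intro x hx
    rw [Set.mem_iUnion₂] at hx
    obtain ⟨τ, _, hx1, _⟩ := hx
    exact hx1
  have hc1 := Set.ncard_le_ncard hsub hfin
  have hc2 := Finset.set_ncard_biUnion_le T
    (fun τ => Rs p (cfgE S G lam τ.1 τ.2.1 (τ.2.2 : ℤ)))
  have hc3 : ∑ τ ∈ T, (Rs p (cfgE S G lam τ.1 τ.2.1 (τ.2.2 : ℤ))).ncard * p ^ 2 ≤
      T.card * p ^ (2 * (n * m)) := by
    rw [← smul_eq_mul, ← Finset.sum_const]
    apply Finset.sum_le_sum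
    intro τ hτ
    rw [hT, Finset.mem_product, Finset.mem_product, Fintype.mem_piFinset, Fintype.mem_piFinset] at hτ
    refine cfg_one hCTA hp hp11 hK β hβ S v G lam h1 h2 h3 τ.1 τ.2.1 ?_ _
    intro i
    have b1 := hτ.1 i
    have b2 := hτ.2.1 i
    rw [Finset.mem_Icc] at b1 b2
    exact ⟨abs_le.mpr b1, abs_le.mpr b2⟩
  rw [hTc] at hc3
  rw [← Finset.sum_mul] at hc3
  have hc4 : (Rs p {a | a ∈ G ∧ ¬ FI S (lam a)}).ncard * p ^ 2 ≤
      25 ^ n * p * p ^ (2 * (n * m)) :=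
    le_trans (Nat.mul_le_mul_right _ (hc1.trans hc2)) hc3
  have hc5 : p * ((Rs p {a | a ∈ G ∧ ¬ FI S (lam a)}).ncard * p) ≤
      p * (25 ^ n * p ^ (2 * (n * m))) := by
    calc p * ((Rs p {a | a ∈ G ∧ ¬ FI S (lam a)}).ncard * p) =
        (Rs p {a | a ∈ G ∧ ¬ FI S (lam a)}).ncard * p ^ 2 := by ring
      _ ≤ 25 ^ n * p * p ^ (2 * (n * m)) := hc4
      _ = p * (25 ^ n * p ^ (2 * (n * m))) := by ring
  exact Nat.le_of_mul_le_mul_left hc5 hp.pos

end Pool.Agent.ZPK.H81
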