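import Pool.Agent.ZPK.StmtsL

/-!
# ZPK, row FIN: roots of unity in finitely many smaller discs (author helper81)
-/

set_option autoImplicit false

open Polynomial Pool.Agent.ZPT Pool.Agent.ZP3

namespace Pool.Agent.ZPK.H81

theorem fin (hRV : ZPT.RVStmt) : FinStmt := by
  intro p hp hp3 K _ _ _ hext S ρ hρ
  classical
  obtain ⟨R, hR⟩ := hRV p hp hp3 K hext ρ hρ
  -- a root of unity in the disc of `a`, if there is one
  have hch : ∀ a : K, ∃ M : ℕ, 1 ≤ M ∧ ((∃ ζ : K, Ro ζ ∧ ‖ζ - a‖ ≤ ρ) →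
      ∃ ζ : K, ζ ^ M = 1 ∧ ‖ζ - a‖ ≤ ρ) := by
    intro a
    by_cases h : ∃ ζ : K, Ro ζ ∧ ‖ζ - a‖ ≤ ρ
    · obtain ⟨ζ, ⟨M, hM, hζM⟩, hζ⟩ := h
      exact ⟨M, hM, fun _ => ⟨ζ, hζM, hζ⟩⟩
    · exact ⟨1, le_refl 1, fun h' => absurd h' h⟩
  choose M hM hMζ using hch
  refine ⟨p ^ R * ∏ a ∈ S, M a, ?_, ?_⟩
  · exact Nat.one_le_iff_ne_zero.2 (mul_ne_zero (pow_ne_zero _ hp.ne_zero)
      (Finset.prod_ne_zero_iff.2 fun a _ => Nat.one_le_iff_ne_zero.1 (hM a)))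
  · rintro ζ hζ ⟨a, ha, hζa⟩
    obtain ⟨ζ', hζ'M, hζ'a⟩ := hMζ a ⟨ζ, hζ, hζa⟩
    obtain ⟨m, hm, hζm⟩ := hζ
    have hn : ‖ζ'‖ = 1 := by
      have h1 := congrArg norm hζ'M
      rw [norm_pow, norm_one] at h1
      exact (pow_eq_one_iff_of_nonneg (norm_nonneg _) (Nat.one_le_iff_ne_zero.1 (hM a))).1 h1
    have hne : ζ' ≠ 0 := norm_pos_iff.1 (by rw [hn]; exact one_pos)
    have hd : ‖ζ / ζ' - 1‖ ≤ ρ := by
      have e : ζ / ζ' - 1 = ((ζ - a) - (ζ' - a)) / ζ' := by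
        field_simp
        ring
      rw [e, norm_div, hn, div_one, sub_eq_add_neg]
      refine (IsUltrametricDist.norm_add_le_max _ _).trans (max_le hζa ?_)
      rw [norm_neg]
      exact hζ'a
    have h2 : (ζ / ζ') ^ (m * M a) = 1 := by
      rw [div_pow, pow_mul, hζm, one_pow, mul_comm, pow_mul, hζ'M, one_pow, div_one]
    have h3 := hR (ζ / ζ') (m * M a) (Nat.one_le_iff_ne_zero.2 (mul_ne_zero
      (Nat.one_le_iff_ne_zero.1 hm) (Nat.one_le_iff_ne_zero.1 (hM a)))) h2 hd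
    rw [div_pow, div_eq_one_iff_eq (pow_ne_zero _ hne)] at h3
    rw [pow_mul, h3, ← Finset.mul_prod_erase S M ha, pow_mul, ← pow_mul ζ' (p ^ R) (M a),
      mul_comm (p ^ R) (M a), pow_mul ζ' (M a), hζ'M, one_pow, one_pow]

end Pool.Agent.ZPK.H81
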