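import Pool.Agent.ZPK.StmtsR
import Pool.Agent.Helper13_ZP3.RAYa

/-!
Squad ZPK, row THN: difference of the logarithms of two small coordinates.
-/

set_option autoImplicit false

namespace Pool.Agent.ZPK.H81

open Polynomial Pool.Agent.ZPT Pool.Agent.ZP3 Pool.Agent.ZP3.H13

lemma thn_split {p : ℕ} {K : Type} [NormedField K] [CharZero K] {Log : K → K} (hp : p.Prime)
    (hLog : IsLog p Log) {N q : K} (hN : ‖N‖ = 1) (hq : q ≠ 0) :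
    ∃ x : K, Log ((p : K) * q⁻¹) = Log N + Log (1 + x) ∧
      ∀ y, ‖x - y‖ = ‖(p : K) * q⁻¹ - N * (1 + y)‖ := by
  have hN0 : N ≠ 0 := by
    intro h
    rw [h, norm_zero] at hN
    exact zero_ne_one hN
  have hp0 : (p : K) ≠ 0 := by exact_mod_cast hp.ne_zero
  have hpq : (p : K) * q⁻¹ ≠ 0 := mul_ne_zero hp0 (inv_ne_zero hq)
  refine ⟨(p : K) * q⁻¹ / N - 1, ?_, ?_⟩
  · have e : (p : K) * q⁻¹ = N * (1 + ((p : K) * q⁻¹ / N - 1)) := by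
      field_simp
      ring
    have h1 : 1 + ((p : K) * q⁻¹ / N - 1) ≠ 0 := by
      intro h
      rw [h, mul_zero] at e
      exact hpq e
    rw [← hLog.mul _ _ hN0 h1, ← e]
  · intro y
    have e : (p : K) * q⁻¹ - N * (1 + y) = N * ((p : K) * q⁻¹ / N - 1 - y) := by
      have h2 : N * ((p : K) * q⁻¹ / N) = (p : K) * q⁻¹ := by field_simp
      linear_combination -h2
    rw [e, norm_mul, hN, one_mul]

theorem thn (hURR : ZP3.URRStmt) (hTHB : ZP3.THBStmt) (hLGB : LgbStmt) (hUNV : UnvStmt)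
    (hRSM : RsmStmt) (hRNS : RnsStmt) : ThnStmt := by
  intro U hU p hp h5 K _ _ _ _ hK Log hLog L hL e e₁ e₂ A₁ A₂ g₁ g₂ hC₁ hC₂ he hl hd0
  obtain ⟨-, -, -, hlg3, hlg4, hlg5, -⟩ := hLGB p hp h5 K hK Log hLog
  obtain ⟨-, hth0, hth1, hth3, -⟩ := hTHB p hp h5
  obtain ⟨hadd, hrat, hint, -, -⟩ := hURR p hp K hK
  obtain ⟨hunv, -⟩ := hUNV p hp K hK L hL
  have hpn := normp (K := K) hp hK
  have hpR : (0 : ℝ) < p := by exact_mod_cast hp.pos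
  have hpinv0 : 0 < (p : ℝ)⁻¹ := by positivity
  have hpinv : (p : ℝ)⁻¹ < 1 := inv_lt_one_of_one_lt₀ (by exact_mod_cast hp.one_lt)
  have hp0 : (p : K) ≠ 0 := by exact_mod_cast hp.ne_zero
  have hth2 : th p ^ 3 < th p ^ 2 := pow_lt_pow_right_of_lt_one₀ hth0 hth1 (by norm_num)
  have hth21 : th p ^ 2 < th p := by
    calc th p ^ 2 < th p ^ 1 := pow_lt_pow_right_of_lt_one₀ hth0 hth1 (by norm_num)
      _ = th p := pow_one _
  have hpth : (p : ℝ)⁻¹ < th p := by linarith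
  have hq0 : ∀ {e' : ℕ} {A : ℕ → K} {g t q : K}, At p U e' A g t q → q ≠ 0 := by
    intro e' A g t q h
    exact norm_pos_iff.mp h.q0
  rcases Nat.eq_zero_or_pos e with he0 | he1
  · -- the case `e = 0`
    have h01 : e₁ = 0 := by omega
    have h02 : e₂ = 0 := by omega
    subst he0
    subst h01
    subst h02
    have hu1 : ‖((PowerSeries.coeff 1 U : ℚ) : K)‖ ≤ 1 := by
      rw [hK]
      exact_mod_cast hU.pint p hp h5 1
    have hUp : Ur p (p : K) := by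
      have := hint (p : ℤ)
      rwa [Int.cast_natCast] at this
    have hNu : ∀ (A : ℕ → K) (g : K), Cd L 0 A g →
        Uu p (g + p * (A 0 - ((PowerSeries.coeff 1 U : ℚ) : K))) := by
      intro A g hC
      have hA : Ur p (A 0) := hunv _ (hC.An 0) (hC.An1 0)
      have hg : Ur p g := hunv _ hC.gL hC.g1.le
      have hd : Ur p (A 0 - ((PowerSeries.coeff 1 U : ℚ) : K)) :=
        (hadd _ _ hA (hrat _ (hU.pint p hp h5 1))).2.2.2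
      have hs := (hadd _ _ hg (hadd _ _ hUp hd).2.1).1
      refine ⟨hs, ?_⟩
      have h1 : ‖(p : K) * (A 0 - ((PowerSeries.coeff 1 U : ℚ) : K))‖ < ‖g‖ := by
        rw [norm_mul, hpn, hC.g1]
        calc (p : ℝ)⁻¹ * ‖A 0 - ((PowerSeries.coeff 1 U : ℚ) : K)‖ ≤ (p : ℝ)⁻¹ * 1 :=
              mul_le_mul_of_nonneg_left (usle (hC.An1 0) hu1) hpinv0.le
          _ < 1 := by rw [mul_one]; exact hpinv
      rw [IsUltrametricDist.norm_add_eq_max_of_norm_ne_norm h1.ne', max_eq_left h1.le, hC.g1]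
    have hN₁ := hNu A₁ g₁ hC₁
    have hN₂ := hNu A₂ g₂ hC₂
    have hd := hd0 rfl
    set N₁ : K := g₁ + p * (A₁ 0 - ((PowerSeries.coeff 1 U : ℚ) : K)) with hN₁d
    set N₂ : K := g₂ + p * (A₂ 0 - ((PowerSeries.coeff 1 U : ℚ) : K)) with hN₂d
    refine ⟨Log N₁ - Log N₂, hd, fun _ => rfl, ?_⟩
    intro t q₁ q₂ ht0 ht1 hSm hw hAt₁ hAt₂
    have hwn : ‖(p : K) / t ^ 0‖ = (p : ℝ)⁻¹ := by rw [pow_zero, div_one, hpn]
    have hside : ∀ (A : ℕ → K) (g q : K), Cd L 0 A g → At p U 0 A g t q →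
        ∃ x : K, Log ((p : K) * q⁻¹) =
          Log (g + p * (A 0 - ((PowerSeries.coeff 1 U : ℚ) : K))) + Log (1 + x) ∧
          ‖Log (1 + x)‖ ≤ max ‖t‖ ((p : ℝ)⁻¹) * (p : ℝ)⁻¹ := by
      intro A g q hC hAt
      obtain ⟨x, hx1, hx2⟩ := thn_split hp hLog (hNu A g hC).2 (hq0 hAt)
      refine ⟨x, hx1, ?_⟩
      have h1 := (hRSM U hU p hp h5 K hK L 0 A g hC t q ht0 ht1 hSm hAt).2.2 rfl
      have h2 := hx2 0
      rw [sub_zero, add_zero, mul_one] at h2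
      have h3 : ‖x‖ ≤ max ‖t‖ ((p : ℝ)⁻¹) * (p : ℝ)⁻¹ := by rw [h2]; exact h1
      have h4 : max ‖t‖ ((p : ℝ)⁻¹) * (p : ℝ)⁻¹ ≤ 1 * (p : ℝ)⁻¹ :=
        mul_le_mul_of_nonneg_right (max_le ht1.le hpinv.le) hpinv0.le
      rw [one_mul] at h4
      rw [hlg3 x ((h3.trans h4).trans_lt hpth)]
      exact h3
    obtain ⟨x₁, hx₁, hb₁⟩ := hside A₁ g₁ q₁ hC₁ hAt₁
    obtain ⟨x₂, hx₂, hb₂⟩ := hside A₂ g₂ q₂ hC₂ hAt₂
    have hmax : max ‖t‖ ((p : ℝ)⁻¹) * (p : ℝ)⁻¹ ≤ (p : ℝ)⁻¹ := by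
      have h4 : max ‖t‖ ((p : ℝ)⁻¹) * (p : ℝ)⁻¹ ≤ 1 * (p : ℝ)⁻¹ :=
        mul_le_mul_of_nonneg_right (max_le ht1.le hpinv.le) hpinv0.le
      rwa [one_mul] at h4
    refine ⟨?_, ?_, ?_⟩
    · rw [hwn, hx₁]
      exact ule (hlg5 _ hN₁) (hb₁.trans hmax)
    · rw [hwn, hx₂]
      exact ule (hlg5 _ hN₂) (hb₂.trans hmax)
    · rw [hwn, hx₁, hx₂]
      have e1 : ‖(Log N₁ - Log N₂) / t ^ 0‖ = (p : ℝ)⁻¹ := by rw [pow_zero, div_one, hd]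
      rw [e1]
      have e2 : Log N₁ + Log (1 + x₁) - (Log N₂ + Log (1 + x₂)) - (Log N₁ - Log N₂) / t ^ 0 =
          Log (1 + x₁) - Log (1 + x₂) := by
        rw [pow_zero, div_one]
        ring
      rw [e2]
      exact usle hb₁ hb₂
  · -- the case `e ≥ 1`
    have hl1 := hl he1
    refine ⟨(p : K) * (lS e e₁ A₁ g₁ - lS e e₂ A₂ g₂), ?_, fun h => absurd h (by omega), ?_⟩
    · rw [norm_mul, hpn, hl1, mul_one]
    intro t q₁ q₂ ht0 ht1 hSm hw hAt₁ hAt₂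
    have ht : t ≠ 0 := norm_pos_iff.mp ht0
    have hte : t ^ e ≠ 0 := pow_ne_zero _ ht
    obtain ⟨w, hwd⟩ : ∃ w : K, w = (p : K) / t ^ e := ⟨_, rfl⟩
    rw [← hwd] at hw ⊢
    have hwn : ‖w‖ * ‖t‖ ^ e = (p : ℝ)⁻¹ := by
      rw [hwd, norm_div, hpn, norm_pow, div_mul_cancel₀]
      exact pow_ne_zero _ ht0.ne'
    have hw0 : 0 ≤ ‖w‖ := norm_nonneg _
    have hpw : (p : ℝ)⁻¹ ≤ ‖t‖ * ‖w‖ := by
      rw [← hwn, mul_comm]
      apply mul_le_mul_of_nonneg_right _ hw0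
      calc ‖t‖ ^ e ≤ ‖t‖ ^ 1 := pow_le_pow_of_le_one ht0.le ht1.le he1
        _ = ‖t‖ := pow_one _
    have htw : ‖t‖ * ‖w‖ ≤ ‖w‖ := mul_le_of_le_one_left hw0 ht1.le
    have hside : ∀ (e' : ℕ) (A : ℕ → K) (g q : K), e' ≤ e → Cd L e' A g → At p U e' A g t q →
        ∃ x : K, Log ((p : K) * q⁻¹) = Log g + Log (1 + x) ∧ ‖Log g‖ ≤ ‖t‖ * ‖w‖ ∧
          ‖x - lS e e' A g * w‖ ≤ ‖t‖ * ‖w‖ ∧ ‖x‖ ≤ ‖w‖ := by
      intro e' A g q hee hC hAt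
      obtain ⟨x, hx1, hx2⟩ := thn_split hp hLog hC.g1 (hq0 hAt)
      have hUg : Uu p g := ⟨hunv _ hC.gL hC.g1.le, hC.g1⟩
      have h1 := (hRNS U hU p hp h5 K hK L e e' A g hC he1 hee t q ht0 ht1 hSm hAt).2
      rw [← hwd] at h1
      have h2 := hx2 (lS e e' A g * w)
      have h3 : ‖x - lS e e' A g * w‖ ≤ ‖t‖ * ‖w‖ := by rw [h2]; exact h1
      have h4 : ‖lS e e' A g‖ ≤ 1 := by
        unfold lS
        split_ifs
        · rw [norm_div, hC.g1, div_one]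
          exact hC.An1 0
        · simp
      refine ⟨x, hx1, (hlg5 g hUg).trans hpw, h3, ?_⟩
      have h5' : x = (x - lS e e' A g * w) + lS e e' A g * w := by ring
      rw [h5']
      refine ule (h3.trans htw) ?_
      rw [norm_mul]
      exact mul_le_of_le_one_left hw0 h4
    obtain ⟨x₁, ha₁, hb₁, hc₁, hd₁⟩ := hside e₁ A₁ g₁ q₁ (by omega) hC₁ hAt₁
    obtain ⟨x₂, ha₂, hb₂, hc₂, hd₂⟩ := hside e₂ A₂ g₂ q₂ (by omega) hC₂ hAt₂
    have hLx : ∀ x : K, ‖x‖ ≤ ‖w‖ → ‖Log (1 + x)‖ ≤ ‖w‖ ∧ ‖Log (1 + x) - x‖ ≤ ‖w‖ * ‖w‖ := by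
      intro x hx
      have h1 : ‖x‖ ≤ th p ^ 2 := hx.trans hw
      constructor
      · rw [hlg3 x (h1.trans_lt hth21)]
        exact hx
      · refine (hlg4 x h1).trans ?_
        rw [pow_two]
        exact mul_le_mul hx hx (norm_nonneg _) hw0
    refine ⟨?_, ?_, ?_⟩
    · rw [ha₁]
      exact ule (hb₁.trans htw) (hLx x₁ hd₁).1
    · rw [ha₂]
      exact ule (hb₂.trans htw) (hLx x₂ hd₂).1
    · have e1 : (p : K) * (lS e e₁ A₁ g₁ - lS e e₂ A₂ g₂) / t ^ e =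
          (lS e e₁ A₁ g₁ - lS e e₂ A₂ g₂) * w := by
        rw [hwd]
        field_simp
      rw [e1, norm_mul, hl1, one_mul, ha₁, ha₂]
      have e2 : Log g₁ + Log (1 + x₁) - (Log g₂ + Log (1 + x₂)) -
          (lS e e₁ A₁ g₁ - lS e e₂ A₂ g₂) * w =
          (Log g₁ - Log g₂) + (((Log (1 + x₁) - x₁) - (Log (1 + x₂) - x₂)) +
            ((x₁ - lS e e₁ A₁ g₁ * w) - (x₂ - lS e e₂ A₂ g₂ * w))) := by ring
      rw [e2]
      have m1 : ‖t‖ * ‖w‖ ≤ max ‖t‖ ‖w‖ * ‖w‖ := mul_le_mul_of_nonneg_right (le_max_left _ _) hw0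
      have m2 : ‖w‖ * ‖w‖ ≤ max ‖t‖ ‖w‖ * ‖w‖ := mul_le_mul_of_nonneg_right (le_max_right _ _) hw0
      refine ule (usle (hb₁.trans m1) (hb₂.trans m1)) (ule (usle ?_ ?_) (usle ?_ ?_))
      · exact (hLx x₁ hd₁).2.trans m2
      · exact (hLx x₂ hd₂).2.trans m2
      · exact hc₁.trans m1
      · exact hc₂.trans m1

end Pool.Agent.ZPK.H81
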