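import Pool.Agent.Helper81_ZPK.XRAa

/-!
Squad ZPK, row XRA: Raynaud's argument for a Moebius relation.
-/

set_option autoImplicit false

namespace Pool.Agent.ZPK.H81

open Polynomial Pool.Agent.ZPT Pool.Agent.ZP3 Pool.Agent.ZP3.H13

noncomputable section

section

variable {K : Type} [NormedField K] [IsUltrametricDist K]

lemma dvd1 [CharZero K] {p : ℕ} (hp : p.Prime) (hK : Ext p K) (x : OO K) :
    ((p : OO K) ∣ x) ↔ ‖(x : K)‖ ≤ (p : ℝ)⁻¹ := by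
  have h := dvdn hp hK x 1
  rwa [pow_one, pow_one] at h

/-- An approximate `p`-th root of an unramified element. -/
lemma rootO [CharZero K] (urr : ZP3.URRStmt) {p : ℕ} (hp : p.Prime) (hK : Ext p K) (a : OO K)
    (ha : Ur p (a : K)) : ∃ a' b : OO K, Ur p (a' : K) ∧ a' ^ p = a + p * b := by
  obtain ⟨ha1, F, hF, hFa⟩ := id ha
  have hpow : ∀ n : ℕ, Ur p ((a : K) ^ n) := by
    intro n
    induction n with
    | zero =>
      rw [pow_zero]
      have h1 := (urr p hp K hK).2.2.1 1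
      rw [Int.cast_one] at h1
      exact h1
    | succ n ih =>
      rw [pow_succ]
      exact ((urr p hp K hK).1 _ _ ih ha).2.1
  have h1 : (p : OO K) ∣ a ^ (p ^ F) - a := by
    rw [dvd1 hp hK]
    push_cast
    exact hFa
  obtain ⟨b, hb⟩ := h1
  refine ⟨a ^ (p ^ (F - 1)), b, ?_, ?_⟩
  · push_cast
    exact hpow _
  · rw [← pow_mul, ← pow_succ, Nat.sub_add_cancel hF]
    linear_combination hb

end

lemma dpow {A : Type} [CommRing A] {p : ℕ} (hp : p.Prime) (hodd : Odd p)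
    {u1 v1 u2 v2 U1 V1 U2 V2 z1 z2 z3 z4 : A}
    (e1 : u1 ^ p = U1 + p * z1) (e2 : v1 ^ p = V1 + p * z2) (e3 : u2 ^ p = U2 + p * z3)
    (e4 : v2 ^ p = V2 + p * z4) :
    ∃ z, (u1 * v1 - u2 * v2) ^ p = (U1 * V1 - U2 * V2) + p * z := by
  obtain ⟨r, hr⟩ := exists_add_pow_prime_eq hp (u1 * v1) (-(u2 * v2))
  refine ⟨U1 * z2 + z1 * V1 + p * z1 * z2 - (U2 * z4 + z3 * V2 + p * z3 * z4) +
    (u1 * v1) * (-(u2 * v2)) * r, ?_⟩
  rw [sub_eq_add_neg, hr, hodd.neg_pow, mul_pow, mul_pow, e1, e2, e3, e4]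
  ring

lemma qpow {A : Type} [CommRing A] {p : ℕ} {k1 k2 l1 l2 m2 n2 z1 z2 : A}
    (e1 : k1 ^ p = l1 + p * z1) (e2 : k2 ^ p = l2 + p * z2) (h2 : k2 * m2 = 1)
    (h3 : l2 * n2 = 1) : ∃ z, (k1 * m2) ^ p = l1 * n2 + p * z := by
  refine ⟨z1 * n2 - l1 * n2 * z2 * m2 ^ p - p * z1 * n2 * z2 * m2 ^ p, ?_⟩
  have h4 : (l2 + p * z2) * m2 ^ p = 1 := by rw [← e2, ← mul_pow, h2, one_pow]
  have h5 : m2 ^ p = n2 - p * n2 * z2 * m2 ^ p := by
    linear_combination n2 * h4 - m2 ^ p * h3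
  rw [mul_pow, e1]
  linear_combination (l1 + p * z1) * h5

theorem xra (hXRB : XrbStmt) (hURR : ZP3.URRStmt) (hURT : ZP3.URTStmt) (_hGNR : ZP3.GNRStmt)
    (hWTM : ZP3.WTMStmt) : XraStmt := by
  classical
  intro p hp h5 K _ _ _ _ hK G B α β κ ε hG hB hα hβ hκ hB0 hd01 hd02 hd03 hd23 hε
  have hpn := normp (K := K) hp hK
  have hpR : (0 : ℝ) < p := by exact_mod_cast hp.pos
  have hpinv0 : 0 < (p : ℝ)⁻¹ := by positivity
  have hpinv : (p : ℝ)⁻¹ < 1 := inv_lt_one_of_one_lt₀ (by exact_mod_cast hp.one_lt)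
  have hpK : (p : K) ≠ 0 := by exact_mod_cast hp.ne_zero
  have hpO : ((p : ℕ) : OO K) ≠ 0 := by
    intro h
    have h1 := congrArg (fun z : OO K => (z : K)) h
    push_cast at h1
    exact hpK h1
  have hodd : Odd p := hp.odd_of_ne_two (by omega)
  obtain ⟨Q, hQ⟩ := exQ hp
  obtain ⟨k, ik, ic, π, hπ, hsurj⟩ := exists_residue (K := K) hp hK
  have hfact := Fact.mk hp
  have hπp : π (p : OO K) = 0 := by
    rw [hπ]
    push_cast
    rw [hpn]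
    exact hpinv
  have hunit : ∀ x : OO K, ‖(x : K)‖ = 1 → π x ≠ 0 := by
    intro x hx h
    rw [hπ, hx] at h
    exact lt_irrefl _ h
  have hne : ∀ x : K, ‖x‖ = 1 → x ≠ 0 := by
    intro x hx h
    rw [h, norm_zero] at hx
    exact zero_ne_one hx
  -- closure properties of the unramified elements
  have umul : ∀ a b : OO K, Ur p (a : K) → Ur p (b : K) → Ur p ((a * b : OO K) : K) :=
    fun a b ha hb => ((hURR p hp K hK).1 _ _ ha hb).2.1
  have uadd : ∀ a b : OO K, Ur p (a : K) → Ur p (b : K) → Ur p ((a + b : OO K) : K) :=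
    fun a b ha hb => ((hURR p hp K hK).1 _ _ ha hb).1
  have usub : ∀ a b : OO K, Ur p (a : K) → Ur p (b : K) → Ur p ((a - b : OO K) : K) :=
    fun a b ha hb => ((hURR p hp K hK).1 _ _ ha hb).2.2.2
  -- the data in the ring of integral elements
  obtain ⟨g, hg⟩ : ∃ g : Fin 4 → OO K, ∀ i, (g i : K) = G i := ⟨fun i => ⟨G i, (hG i).1⟩, fun _ => rfl⟩
  obtain ⟨b, hb⟩ : ∃ b : Fin 4 → OO K, ∀ i, (b i : K) = B i := ⟨fun i => ⟨B i, (hB i).1⟩, fun _ => rfl⟩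
  obtain ⟨al, hal⟩ : ∃ al : Fin 4 → OO K, ∀ i, (al i : K) = α i := ⟨fun i => ⟨α i, hα i⟩, fun _ => rfl⟩
  obtain ⟨be, hbe⟩ : ∃ be : Fin 4 → OO K, ∀ i, (be i : K) = β i := ⟨fun i => ⟨β i, hβ i⟩, fun _ => rfl⟩
  obtain ⟨kp, hkp⟩ : ∃ kp : Fin 4 → OO K, ∀ i, (kp i : K) = κ i :=
    ⟨fun i => ⟨κ i, (hκ i).2.le⟩, fun _ => rfl⟩
  obtain ⟨ki, hki⟩ : ∃ ki : Fin 4 → OO K, ∀ i, (ki i : K) = (κ i)⁻¹ :=
    ⟨fun i => ⟨(κ i)⁻¹, by
      show ‖(κ i)⁻¹‖ ≤ 1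
      rw [norm_inv, (hκ i).2, inv_one]⟩, fun _ => rfl⟩
  have hk0 : ∀ i, κ i ≠ 0 := fun i => hne _ (hκ i).2
  have hkk : ∀ i, kp i * ki i = 1 := by
    intro i
    apply Subtype.ext
    push_cast
    rw [hkp, hki, mul_inv_cancel₀ (hk0 i)]
  choose g' gz hg'u hg'p using fun i => rootO hURR hp hK (g i) (by rw [hg]; exact hG i)
  choose b' bz hb'u hb'p using fun i => rootO hURR hp hK (b i) (by rw [hb]; exact hB i)
  choose k' kz hk'u hk'p using fun i => rootO hURR hp hK (kp i) (by rw [hkp]; exact (hκ i).1)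
  have hk'1 : ∀ i, ‖(k' i : K)‖ = 1 := by
    intro i
    refine le_antisymm (k' i).2 ?_
    by_contra h
    push Not at h
    rw [← hπ] at h
    have h1 := congrArg π (hk'p i)
    rw [map_pow, h, zero_pow hp.ne_zero, map_add, map_mul, hπp, zero_mul, add_zero] at h1
    exact hunit (kp i) (by rw [hkp]; exact (hκ i).2) h1.symm
  obtain ⟨k'i, hk'i⟩ : ∃ k'i : Fin 4 → OO K, ∀ i, (k'i i : K) = (k' i : K)⁻¹ :=
    ⟨fun i => ⟨(k' i : K)⁻¹, by
      show ‖(k' i : K)⁻¹‖ ≤ 1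
      rw [norm_inv, hk'1 i, inv_one]⟩, fun _ => rfl⟩
  have hkk' : ∀ i, k' i * k'i i = 1 := by
    intro i
    apply Subtype.ext
    push_cast
    rw [hk'i, mul_inv_cancel₀ (hne _ (hk'1 i))]
  have hk'iu : ∀ i, Ur p (k'i i : K) := by
    intro i
    rw [hk'i]
    exact ((hURR p hp K hK).2.2.2.2 _ ⟨hk'u i, hk'1 i⟩).1
  -- the constants
  obtain ⟨z0, hz0⟩ := dpow hp hodd (hg'p 1) (hb'p 3) (hg'p 3) (hb'p 1)
  obtain ⟨z1, hz1⟩ := dpow hp hodd (hg'p 2) (hb'p 1) (hg'p 1) (hb'p 2)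
  obtain ⟨z2, hz2⟩ := dpow hp hodd (hg'p 3) (hb'p 0) (hg'p 0) (hb'p 3)
  obtain ⟨z3, hz3⟩ := dpow hp hodd (hg'p 0) (hb'p 2) (hg'p 2) (hb'p 0)
  obtain ⟨γ1, hγ1⟩ := qpow (hk'p 1) (hk'p 0) (hkk' 0) (hkk 0)
  obtain ⟨γ2, hγ2⟩ := qpow (hk'p 3) (hk'p 2) (hkk' 2) (hkk 2)
  have hGk : ∀ i, π (g' i) ^ p = π (g i) := by
    intro i
    rw [← map_pow, hg'p, map_add, map_mul, hπp, zero_mul, add_zero]
  have hBk : ∀ i, π (b' i) ^ p = π (b i) := by
    intro i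
    rw [← map_pow, hb'p, map_add, map_mul, hπp, zero_mul, add_zero]
  have hdd : ∀ i j, ‖G i * B j - G j * B i‖ = 1 →
      π (g' i) * π (b' j) - π (g' j) * π (b' i) ≠ 0 := by
    intro i j h h1
    have h2 : (π (g' i) * π (b' j) - π (g' j) * π (b' i)) ^ p = π (g i * b j - g j * b i) := by
      rw [sub_pow_char, mul_pow, mul_pow, hGk, hGk, hBk, hBk, map_sub, map_mul, map_mul]
    rw [h1, zero_pow hp.ne_zero] at h2
    refine hunit (g i * b j - g j * b i) ?_ h2.symm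
    push_cast
    rw [hg, hg, hb, hb]
    exact h
  have hB0k : π (b' 0) ≠ 0 := by
    intro h1
    have h2 := hBk 0
    rw [h1, zero_pow hp.ne_zero] at h2
    exact hunit (b 0) (by rw [hb]; exact hB0) h2.symm
  set c : Fin 4 → k := ![π z0 + (π (g 1) * π (b 3) - π (g 3) * π (b 1)) *
      (π (γ1 * kp 0 * ki 1) + π (γ2 * kp 2 * ki 3)),
    π z1 + (π (g 2) * π (b 1) - π (g 1) * π (b 2)) * π (γ1 * kp 0 * ki 1),
    π z2 + (π (g 3) * π (b 0) - π (g 0) * π (b 3)) * π (γ2 * kp 2 * ki 3), π z3] with hc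
  set l : Fin 4 → k[X] := fun i => C (π (g' i)) + C (π (b' i)) * X with hl
  set Y : Fin 4 → k[X] := ![C (π (g' 1) * π (b' 3) - π (g' 3) * π (b' 1)) * l 0 * l 2,
    C (π (g' 2) * π (b' 1) - π (g' 1) * π (b' 2)) * l 0 * l 3,
    C (π (g' 3) * π (b' 0) - π (g' 0) * π (b' 3)) * l 1 * l 2,
    C (π (g' 0) * π (b' 2) - π (g' 2) * π (b' 0)) * l 1 * l 3] with hY
  set P : k[X] := (Sp (fun i => π (g i)) (fun i => π (b i)) (fun i => π (al i))
    (fun i => π (be i)) c).comp (X ^ p) + X ^ p * MvPolynomial.aeval Y Q with hP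
  have hP0 : P ≠ 0 := hXRB p hp (by omega) k (fun i => π (g' i)) (fun i => π (b' i)) Q hQ hB0k
    (hdd 0 1 hd01) (hdd 0 2 hd02) (hdd 0 3 hd03) (hdd 2 3 hd23) l Y (fun _ => rfl) rfl rfl rfl rfl _
  -- finitely many residues of `ζ`
  have hM : ∀ v : k, ∃ M : ℕ, 1 ≤ M ∧ ∀ ζ : OO K, Tame p (ζ : K) → π ζ = v → (ζ : K) ^ M = 1 := by
    intro v
    by_cases h : ∃ ζ0 : OO K, Tame p (ζ0 : K) ∧ π ζ0 = v
    · obtain ⟨ζ0, hζ0, rfl⟩ := h
      obtain ⟨M, hM, hpM, hζM⟩ := id hζ0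
      refine ⟨M, hM, ?_⟩
      intro ζ hζ hζζ
      have h1 : (ζ : K) = (ζ0 : K) := by
        apply tuniq hWTM hp hK hζ hζ0
        have h2 : π (ζ - ζ0) = 0 := by rw [map_sub, hζζ, sub_self]
        rw [hπ] at h2
        push_cast at h2
        exact h2
      rw [h1, hζM]
    · exact ⟨1, le_refl _, fun ζ hζ hζζ => absurd ⟨ζ, hζ, hζζ⟩ h⟩
  choose Mf hMf1 hMf2 using hM
  refine ⟨∏ r ∈ P.roots.toFinset, Mf (π (kp 0 * ki 1) *
    ((π (g 0) + π (b 0) * r ^ p) / (π (g 1) + π (b 1) * r ^ p))),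
    Nat.succ_le_of_lt (Finset.prod_pos fun r _ => hMf1 _), ?_⟩
  intro N w ζ ζ' hw hlw hN hζ hζ' h01 h23
  have hw0 := hne w hw
  obtain ⟨wO, hwO⟩ : ∃ x : OO K, (x : K) = w := ⟨⟨w, hw.le⟩, rfl⟩
  obtain ⟨wi, hwi⟩ : ∃ x : OO K, (x : K) = w⁻¹ :=
    ⟨⟨w⁻¹, by
      show ‖w⁻¹‖ ≤ 1
      rw [norm_inv, hw, inv_one]⟩, rfl⟩
  have hww : wO * wi = 1 := by
    apply Subtype.ext
    push_cast
    rw [hwO, hwi, mul_inv_cancel₀ hw0]
  obtain ⟨ζO, hζO⟩ : ∃ x : OO K, (x : K) = ζ := ⟨⟨ζ, (tnorm hζ).le⟩, rfl⟩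
  obtain ⟨ζ'O, hζ'O⟩ : ∃ x : OO K, (x : K) = ζ' := ⟨⟨ζ', (tnorm hζ').le⟩, rfl⟩
  obtain ⟨s1, hs1, hs1p⟩ := troot hp hζ
  obtain ⟨s2, hs2, hs2p⟩ := troot hp hζ'
  obtain ⟨s1O, hs1O⟩ : ∃ x : OO K, (x : K) = s1 := ⟨⟨s1, (tnorm hs1).le⟩, rfl⟩
  obtain ⟨s2O, hs2O⟩ : ∃ x : OO K, (x : K) = s2 := ⟨⟨s2, (tnorm hs2).le⟩, rfl⟩
  have hs1p' : s1O ^ p = ζO := by
    apply Subtype.ext
    push_cast
    rw [hs1O, hζO, hs1p]
  have hs2p' : s2O ^ p = ζ'O := by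
    apply Subtype.ext
    push_cast
    rw [hs2O, hζ'O, hs2p]
  have he : ∀ i, ‖(N i - (G i + B i * w + p * (α i + β i / w))) / p‖ < 1 := by
    intro i
    rw [norm_div, hpn, div_inv_eq_mul]
    calc ‖N i - (G i + B i * w + p * (α i + β i / w))‖ * p ≤ ε * (p : ℝ)⁻¹ * p :=
          mul_le_mul_of_nonneg_right (hN i) hpR.le
      _ = ε := by rw [mul_assoc, inv_mul_cancel₀ hpR.ne', mul_one]
      _ < 1 := hε
  obtain ⟨eO, heO⟩ : ∃ e : Fin 4 → OO K, ∀ i, (e i : K) =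
      (N i - (G i + B i * w + p * (α i + β i / w))) / p := ⟨fun i => ⟨_, (he i).le⟩, fun _ => rfl⟩
  have hπe : ∀ i, π (eO i) = 0 := by
    intro i
    rw [hπ, heO]
    exact he i
  set F : Fin 4 → OO K := fun i => al i + be i * wi + eO i with hF
  set NO : Fin 4 → OO K := fun i => g i + b i * wO + p * F i with hNO
  have hNOK : ∀ i, (NO i : K) = N i := by
    intro i
    simp only [hNO, hF]
    push_cast
    rw [hg, hb, hwO, hal, hbe, hwi, heO]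
    field_simp
    ring
  obtain ⟨x, hx⟩ : ∃ x : OO K, x = ζO * (kp 1 * ki 0) := ⟨_, rfl⟩
  obtain ⟨y, hy⟩ : ∃ y : OO K, y = ζ'O * (kp 3 * ki 2) := ⟨_, rfl⟩
  have h01' : NO 0 = x * NO 1 := by
    apply Subtype.ext
    rw [hx]
    push_cast
    rw [hNOK, hNOK, hζO, hkp, hki]
    have h1 := hk0 0
    field_simp
    linear_combination h01
  have h23' : NO 2 = y * NO 3 := by
    apply Subtype.ext
    rw [hy]
    push_cast
    rw [hNOK, hNOK, hζ'O, hkp, hki]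
    have h1 := hk0 2
    field_simp
    linear_combination h23
  have hx1 : (s1O * (k' 1 * k'i 0)) ^ p = x + p * (ζO * γ1) := by
    rw [mul_pow, hγ1, hs1p', hx]
    ring
  have hy1 : (s2O * (k' 3 * k'i 2)) ^ p = y + p * (ζ'O * γ2) := by
    rw [mul_pow, hγ2, hs2p', hy]
    ring
  obtain ⟨x1, hx1d⟩ : ∃ x1 : OO K, x1 = s1O * (k' 1 * k'i 0) := ⟨_, rfl⟩
  obtain ⟨y1, hy1d⟩ : ∃ y1 : OO K, y1 = s2O * (k' 3 * k'i 2) := ⟨_, rfl⟩
  rw [← hx1d] at hx1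
  rw [← hy1d] at hy1
  set a' : Fin 4 → OO K := ![g' 1 * b' 3 - g' 3 * b' 1, g' 2 * b' 1 - g' 1 * b' 2,
    g' 3 * b' 0 - g' 0 * b' 3, g' 0 * b' 2 - g' 2 * b' 0] with ha'
  set u : Fin 4 → OO K := ![a' 0 * x1 * y1, a' 1 * x1, a' 2 * y1, a' 3] with hu
  have hrel := orel (A := OO K) hp.two_le hpO g b F NO a' ![z0, z1, z2, z3] u wO x y x1 y1
    (ζO * γ1) (ζ'O * γ2) (MvPolynomial.aeval u Q) (fun _ => rfl) h01' h23' hz0 hz1 hz2 hz3 hx1 hy1
    rfl rfl rfl rfl (Qid hQ u)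
  obtain ⟨⟨r, hr⟩, hrel2⟩ := hrel
  have hsum0 : π (∑ i, u i) = 0 := by
    have h1 := congrArg π hr
    rw [map_pow, map_mul, hπp, zero_mul] at h1
    exact pow_eq_zero_iff hp.ne_zero |>.mp h1
  have hUx1 : Ur p (x1 : K) := by
    rw [hx1d]
    refine umul _ _ ?_ (umul _ _ (hk'u 1) (hk'iu 0))
    rw [hs1O]
    exact ((hURT p hp K hK).1 s1 hs1).1
  have hUy1 : Ur p (y1 : K) := by
    rw [hy1d]
    refine umul _ _ ?_ (umul _ _ (hk'u 3) (hk'iu 2))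
    rw [hs2O]
    exact ((hURT p hp K hK).1 s2 hs2).1
  have hUd : ∀ i j k l, Ur p ((g' i * b' j - g' k * b' l : OO K) : K) := fun i j k l =>
    usub _ _ (umul _ _ (hg'u i) (hb'u j)) (umul _ _ (hg'u k) (hb'u l))
  have hUsum : Ur p ((∑ i, u i : OO K) : K) := by
    rw [Fin.sum_univ_four]
    refine uadd _ _ (uadd _ _ (uadd _ _ ?_ ?_) ?_) ?_
    · exact umul _ _ (umul _ _ (hUd 1 3 3 1) hUx1) hUy1
    · exact umul _ _ (hUd 2 1 1 2) hUx1
    · exact umul _ _ (hUd 3 0 0 3) hUy1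
    · exact hUd 0 2 2 0
  have hdvd : (p : OO K) ∣ ∑ i, u i := by
    rw [dvd1 hp hK]
    exact (hURR p hp K hK).2.2.2.1 _ hUsum ((hπ _).mp hsum0)
  obtain ⟨r2, hr2⟩ := hrel2 hdvd
  -- the `p`-th root of `w`
  obtain ⟨T, hT⟩ := IsAlgClosed.exists_pow_nat_eq w hp.pos
  have hTn : ‖T‖ = 1 := by
    have h1 : ‖T‖ ^ p = 1 := by rw [← norm_pow, hT, hw]
    exact (pow_eq_one_iff_of_nonneg (norm_nonneg _) hp.ne_zero).1 h1
  obtain ⟨TO, hTO⟩ : ∃ x : OO K, (x : K) = T := ⟨⟨T, hTn.le⟩, rfl⟩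
  have hTp : π TO ^ p = π wO := by
    rw [← map_pow]
    congr 1
    apply Subtype.ext
    push_cast
    rw [hTO, hwO, hT]
  have hlam : ∀ i, π (g i) + π (b i) * π wO ≠ 0 := by
    intro i
    rw [← map_mul, ← map_add]
    apply hunit
    push_cast
    rw [hg, hb, hwO]
    exact hlw i
  have hπN : ∀ i, π (NO i) = π (g i) + π (b i) * π wO := by
    intro i
    simp only [hNO]
    rw [map_add, map_add, map_mul, map_mul, hπp, zero_mul, add_zero]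
  have hxl : π x * (π (g 1) + π (b 1) * π wO) = π (g 0) + π (b 0) * π wO := by
    rw [← hπN, ← hπN, h01', map_mul]
  have hyl : π y * (π (g 3) + π (b 3) * π wO) = π (g 2) + π (b 2) * π wO := by
    rw [← hπN, ← hπN, h23', map_mul]
  have hx1k : π x1 ^ p = π x := by
    rw [← map_pow, hx1, map_add, map_mul, hπp, zero_mul, add_zero]
  have hy1k : π y1 ^ p = π y := by
    rw [← map_pow, hy1, map_add, map_mul, hπp, zero_mul, add_zero]
  have hπww : π wO * π wi = 1 := by rw [← map_mul, hww, map_one]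
  have hfk : ∀ i, π wO * π (F i) = π (al i) * π wO + π (be i) := by
    intro i
    simp only [hF]
    rw [map_add, map_add, map_mul, hπe, add_zero]
    linear_combination π (be i) * hπww
  have hζγ : ∀ (s m : OO K) (i j : Fin 4), π (s * m) =
      π (s * (kp i * ki j)) * π (m * kp j * ki i) := by
    intro s m i j
    rw [← map_mul]
    congr 1
    linear_combination -(s * m * (kp j * ki j)) * hkk i - s * m * hkk j
  have hroot : P.eval (π TO) = 0 := by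
    refine keval hp Q (Qhomk π hsurj hpO hQ) (fun i => π (g i)) (fun i => π (b i))
      (fun i => π (g' i)) (fun i => π (b' i)) (fun i => π (al i)) (fun i => π (be i)) c
      (fun i => π (F i)) (fun i => π (u i)) hGk hBk l Y (fun _ => rfl) rfl rfl rfl rfl (π TO)
      (π wO) (π x) (π y) (π x1) (π y1) hTp hxl hyl hx1k hy1k hfk ?_ ?_ ?_ ?_ ?_
    · show π (a' 0 * x1 * y1) = _
      rw [map_mul, map_mul]
      congr 2
      show π (g' 1 * b' 3 - g' 3 * b' 1) = _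
      rw [map_sub, map_mul, map_mul]
    · show π (a' 1 * x1) = _
      rw [map_mul]
      congr 1
      show π (g' 2 * b' 1 - g' 1 * b' 2) = _
      rw [map_sub, map_mul, map_mul]
    · show π (a' 2 * y1) = _
      rw [map_mul]
      congr 1
      show π (g' 3 * b' 0 - g' 0 * b' 3) = _
      rw [map_sub, map_mul, map_mul]
    · show π (g' 0 * b' 2 - g' 2 * b' 0) = _
      rw [map_sub, map_mul, map_mul]
    · have h1 := congrArg π hr2
      simp only [map_add, map_mul, map_sub, map_neg, hπp, zero_mul, Qmap] at h1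
      have h2 : c 0 = π z0 + (π (g 1) * π (b 3) - π (g 3) * π (b 1)) *
        (π (γ1 * kp 0 * ki 1) + π (γ2 * kp 2 * ki 3)) := rfl
      have h3 : c 1 = π z1 + (π (g 2) * π (b 1) - π (g 1) * π (b 2)) * π (γ1 * kp 0 * ki 1) := rfl
      have h4 : c 2 = π z2 + (π (g 3) * π (b 0) - π (g 0) * π (b 3)) * π (γ2 * kp 2 * ki 3) := rfl
      have h5 : c 3 = π z3 := rfl
      have h6 : π ζO * π γ1 = π x * π (γ1 * kp 0 * ki 1) := by
        rw [← map_mul, hx]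
        exact hζγ ζO γ1 1 0
      have h7 : π ζ'O * π γ2 = π y * π (γ2 * kp 2 * ki 3) := by
        rw [← map_mul, hy]
        exact hζγ ζ'O γ2 3 2
      rw [h6, h7] at h1
      rw [h2, h3, h4, h5]
      have h8 : ![z0, z1, z2, z3] 0 = z0 := rfl
      have h9 : ![z0, z1, z2, z3] 1 = z1 := rfl
      have h10 : ![z0, z1, z2, z3] 2 = z2 := rfl
      have h11 : ![z0, z1, z2, z3] 3 = z3 := rfl
      rw [h8, h9, h10, h11] at h1
      linear_combination h1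
  have hmem : π TO ∈ P.roots.toFinset := by
    rw [Multiset.mem_toFinset, mem_roots hP0]
    exact hroot
  have hval : π ζO = π (kp 0 * ki 1) * ((π (g 0) + π (b 0) * π TO ^ p) /
      (π (g 1) + π (b 1) * π TO ^ p)) := by
    rw [hTp]
    have h1 : (π (g 0) + π (b 0) * π wO) / (π (g 1) + π (b 1) * π wO) = π x := by
      rw [← hxl, mul_div_cancel_right₀ _ (hlam 1)]
    rw [h1, ← map_mul, hx]
    congr 1
    linear_combination -(ζO * (kp 1 * ki 1)) * hkk 0 - ζO * hkk 1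
  have hfin := hMf2 _ ζO (by rw [hζO]; exact hζ) hval
  obtain ⟨m, hm⟩ := Finset.dvd_prod_of_mem (fun r => Mf (π (kp 0 * ki 1) *
    ((π (g 0) + π (b 0) * r ^ p) / (π (g 1) + π (b 1) * r ^ p)))) hmem
  rw [hm, pow_mul]
  rw [hζO] at hfin
  rw [hfin, one_pow]

end

end Pool.Agent.ZPK.H81
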