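import Pool.Agent.ZPK.StmtsX
import Pool.Agent.Helper13_ZP3.RAYa

/-!
Squad ZPK, row XRA: the residue field, the integer polynomial of the binomial formula and the algebra of the
relation.
-/

set_option autoImplicit false

namespace Pool.Agent.ZPK.H81

open Polynomial Pool.Agent.ZPT Pool.Agent.ZP3 Pool.Agent.ZP3.H13

noncomputable section

section residue

variable {K : Type} [NormedField K] [IsUltrametricDist K]

/-- The maximal ideal. -/
def mm (K : Type) [NormedField K] [IsUltrametricDist K] : Ideal (OO K) where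
  carrier := {x | ‖(x : K)‖ < 1}
  add_mem' := by
    intro a b ha hb
    exact ult ha hb
  zero_mem' := by
    show ‖((0 : OO K) : K)‖ < 1
    simp
  smul_mem' := by
    intro c x hx
    show ‖((c • x : OO K) : K)‖ < 1
    rw [smul_eq_mul]
    exact mlt c.2 hx

lemma mem_mm (x : OO K) : x ∈ mm K ↔ ‖(x : K)‖ < 1 := Iff.rfl

lemma mm_max : (mm K).IsMaximal := by
  rw [Ideal.isMaximal_iff]
  constructor
  · rw [mem_mm]
    simp
  · intro J x _ hx hxJ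
    rw [mem_mm, not_lt] at hx
    have hx1 : ‖(x : K)‖ = 1 := le_antisymm x.2 hx
    have hx0 : (x : K) ≠ 0 := by
      intro h
      rw [h, norm_zero] at hx1
      exact zero_ne_one hx1
    have hi : ‖((x : K))⁻¹‖ ≤ 1 := by rw [norm_inv, hx1, inv_one]
    have h1 : (1 : OO K) = ⟨(x : K)⁻¹, hi⟩ * x := by
      apply Subtype.ext
      show (1 : K) = (x : K)⁻¹ * (x : K)
      rw [inv_mul_cancel₀ hx0]
    rw [h1]
    exact J.mul_mem_left _ hxJ

lemma exists_residue [CharZero K] {p : ℕ} (hp : p.Prime) (hK : Ext p K) :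
    ∃ (k : Type) (_ : Field k) (_ : CharP k p) (π : OO K →+* k),
      (∀ x : OO K, π x = 0 ↔ ‖(x : K)‖ < 1) ∧ Function.Surjective π := by
  have := mm_max (K := K)
  let _ : Field (OO K ⧸ mm K) := Ideal.Quotient.field (mm K)
  have h0 : ∀ x : OO K, Ideal.Quotient.mk (mm K) x = 0 ↔ ‖(x : K)‖ < 1 := by
    intro x
    rw [Ideal.Quotient.eq_zero_iff_mem, mem_mm]
  have hc : CharP (OO K ⧸ mm K) p := by
    rw [CharP.charP_iff_prime_eq_zero hp]
    have h1 : ((p : ℕ) : OO K ⧸ mm K) = Ideal.Quotient.mk (mm K) ((p : ℕ) : OO K) := by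
      rw [map_natCast]
    rw [h1, h0]
    have h2 : (((p : ℕ) : OO K) : K) = (p : K) := by push_cast; rfl
    rw [h2, normp hp hK]
    exact inv_lt_one_of_one_lt₀ (by exact_mod_cast hp.one_lt)
  exact ⟨OO K ⧸ mm K, inferInstance, hc, Ideal.Quotient.mk (mm K), h0,
    Ideal.Quotient.mk_surjective⟩

end residue

/-! ### the integer polynomial -/

lemma exQ {p : ℕ} (hp : p.Prime) : ∃ Q : MvPolynomial (Fin 4) ℤ,
    MvPolynomial.C (p : ℤ) * Q =
      (∑ i, MvPolynomial.X i) ^ p - ∑ i, MvPolynomial.X i ^ p := by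
  obtain ⟨r1, h1⟩ := exists_add_pow_prime_eq hp (MvPolynomial.X 0 : MvPolynomial (Fin 4) ℤ)
    (MvPolynomial.X 1)
  obtain ⟨r2, h2⟩ := exists_add_pow_prime_eq hp
    (MvPolynomial.X 0 + MvPolynomial.X 1 : MvPolynomial (Fin 4) ℤ) (MvPolynomial.X 2)
  obtain ⟨r3, h3⟩ := exists_add_pow_prime_eq hp
    (MvPolynomial.X 0 + MvPolynomial.X 1 + MvPolynomial.X 2 : MvPolynomial (Fin 4) ℤ)
    (MvPolynomial.X 3)
  refine ⟨MvPolynomial.X 0 * MvPolynomial.X 1 * r1 +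
    (MvPolynomial.X 0 + MvPolynomial.X 1) * MvPolynomial.X 2 * r2 +
    (MvPolynomial.X 0 + MvPolynomial.X 1 + MvPolynomial.X 2) * MvPolynomial.X 3 * r3, ?_⟩
  have hC : (MvPolynomial.C (p : ℤ) : MvPolynomial (Fin 4) ℤ) = (p : MvPolynomial (Fin 4) ℤ) :=
    map_natCast MvPolynomial.C p
  rw [Fin.sum_univ_four, Fin.sum_univ_four, h3, h2, h1, hC]
  ring

lemma Qid {A : Type} [CommRing A] {p : ℕ} {Q : MvPolynomial (Fin 4) ℤ}
    (hQ : MvPolynomial.C (p : ℤ) * Q =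
      (∑ i, MvPolynomial.X i) ^ p - ∑ i, MvPolynomial.X i ^ p) (u : Fin 4 → A) :
    (p : A) * MvPolynomial.aeval u Q = (∑ i, u i) ^ p - ∑ i, u i ^ p := by
  have h := congrArg (MvPolynomial.aeval u) hQ
  rw [map_mul, map_sub, map_pow, map_sum, map_sum] at h
  simp only [map_pow, MvPolynomial.aeval_X] at h
  rw [← h]
  congr 1
  rw [MvPolynomial.aeval_C]
  simp

lemma Qmap {A A' : Type} [CommRing A] [CommRing A'] (φ : A →+* A') (Q : MvPolynomial (Fin 4) ℤ)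
    (u : Fin 4 → A) : φ (MvPolynomial.aeval u Q) = MvPolynomial.aeval (fun i => φ (u i)) Q :=
  MvPolynomial.comp_aeval_apply u φ.toIntAlgHom Q

lemma Qhom {A : Type} [CommRing A] [IsDomain A] {p : ℕ} (hp0 : (p : A) ≠ 0)
    {Q : MvPolynomial (Fin 4) ℤ} (hQ : MvPolynomial.C (p : ℤ) * Q =
      (∑ i, MvPolynomial.X i) ^ p - ∑ i, MvPolynomial.X i ^ p) (s : A) (u : Fin 4 → A) :
    MvPolynomial.aeval (fun i => s * u i) Q = s ^ p * MvPolynomial.aeval u Q := by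
  apply mul_left_cancel₀ hp0
  rw [Qid hQ, ← Finset.mul_sum, mul_pow]
  have h : (p : A) * (s ^ p * MvPolynomial.aeval u Q) = s ^ p * (p * MvPolynomial.aeval u Q) := by
    ring
  rw [h, Qid hQ, mul_sub, Finset.mul_sum]
  congr 1
  exact Finset.sum_congr rfl fun i _ => mul_pow _ _ _

lemma Qhomk {A k : Type} [CommRing A] [IsDomain A] [Field k] (π : A →+* k)
    (hπ : Function.Surjective π) {p : ℕ} (hp0 : (p : A) ≠ 0)
    {Q : MvPolynomial (Fin 4) ℤ} (hQ : MvPolynomial.C (p : ℤ) * Q =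
      (∑ i, MvPolynomial.X i) ^ p - ∑ i, MvPolynomial.X i ^ p) (s : k) (u : Fin 4 → k) :
    MvPolynomial.aeval (fun i => s * u i) Q = s ^ p * MvPolynomial.aeval u Q := by
  obtain ⟨s', rfl⟩ := hπ s
  choose u' hu' using fun i => hπ (u i)
  have h := congrArg π (Qhom hp0 hQ s' u')
  rw [Qmap, map_mul, map_pow, Qmap] at h
  simp only [map_mul, hu'] at h
  exact h

/-! ### the relation in the ring -/

lemma orel {A : Type} [CommRing A] [IsDomain A] {p : ℕ} (h2 : 2 ≤ p) (hp0 : (p : A) ≠ 0)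
    (G B F N a b u : Fin 4 → A) (w x y x1 y1 P1 P2 q : A)
    (hN : ∀ i, N i = G i + B i * w + p * F i) (h01 : N 0 = x * N 1) (h23 : N 2 = y * N 3)
    (ha0 : a 0 ^ p = (G 1 * B 3 - G 3 * B 1) + p * b 0)
    (ha1 : a 1 ^ p = (G 2 * B 1 - G 1 * B 2) + p * b 1)
    (ha2 : a 2 ^ p = (G 3 * B 0 - G 0 * B 3) + p * b 2)
    (ha3 : a 3 ^ p = (G 0 * B 2 - G 2 * B 0) + p * b 3)
    (hx1 : x1 ^ p = x + p * P1) (hy1 : y1 ^ p = y + p * P2)
    (hu0 : u 0 = a 0 * x1 * y1) (hu1 : u 1 = a 1 * x1) (hu2 : u 2 = a 2 * y1) (hu3 : u 3 = a 3)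
    (hq : (p : A) * q = (∑ i, u i) ^ p - ∑ i, u i ^ p) :
    (∃ r, (∑ i, u i) ^ p = p * r) ∧
    ((p : A) ∣ ∑ i, u i → ∃ r,
      -((B 2 - y * B 3) * (F 0 - x * F 1) - (B 0 - x * B 1) * (F 2 - y * F 3)) +
      ((b 0 * x * y + (G 1 * B 3 - G 3 * B 1) * (P1 * y + x * P2)) +
        (b 1 * x + (G 2 * B 1 - G 1 * B 2) * P1) + (b 2 * y + (G 3 * B 0 - G 0 * B 3) * P2) +
        b 3) + q = p * r) := by
  have hR : (G 0 - x * G 1) * (B 2 - y * B 3) - (G 2 - y * G 3) * (B 0 - x * B 1) =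
      -(p * ((B 2 - y * B 3) * (F 0 - x * F 1) - (B 0 - x * B 1) * (F 2 - y * F 3))) := by
    rw [hN 0, hN 1] at h01
    rw [hN 2, hN 3] at h23
    linear_combination (B 2 - y * B 3) * h01 - (B 0 - x * B 1) * h23
  have hs : ∑ i, u i ^ p = (G 0 - x * G 1) * (B 2 - y * B 3) - (G 2 - y * G 3) * (B 0 - x * B 1) +
      p * ((b 0 * x * y + (G 1 * B 3 - G 3 * B 1) * (P1 * y + x * P2)) +
        (b 1 * x + (G 2 * B 1 - G 1 * B 2) * P1) + (b 2 * y + (G 3 * B 0 - G 0 * B 3) * P2) +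
        b 3) + p * (p * (b 0 * (P1 * y + x * P2) + (G 1 * B 3 - G 3 * B 1) * P1 * P2 +
          p * b 0 * P1 * P2 + b 1 * P1 + b 2 * P2)) := by
    rw [Fin.sum_univ_four, hu0, hu1, hu2, hu3, mul_pow, mul_pow, mul_pow, mul_pow, ha0, ha1, ha2,
      ha3, hx1, hy1]
    ring
  have hS : (∑ i, u i) ^ p = p *
      (-((B 2 - y * B 3) * (F 0 - x * F 1) - (B 0 - x * B 1) * (F 2 - y * F 3)) +
      ((b 0 * x * y + (G 1 * B 3 - G 3 * B 1) * (P1 * y + x * P2)) +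
        (b 1 * x + (G 2 * B 1 - G 1 * B 2) * P1) + (b 2 * y + (G 3 * B 0 - G 0 * B 3) * P2) +
        b 3) + q + p * (b 0 * (P1 * y + x * P2) + (G 1 * B 3 - G 3 * B 1) * P1 * P2 +
          p * b 0 * P1 * P2 + b 1 * P1 + b 2 * P2)) := by
    linear_combination hR + hs - hq
  refine ⟨⟨_, hS⟩, ?_⟩
  rintro ⟨z, hz⟩
  obtain ⟨m, rfl⟩ : ∃ m, p = m + 2 := ⟨p - 2, by omega⟩
  refine ⟨((m + 2 : ℕ) : A) ^ m * z ^ (m + 2) - (b 0 * (P1 * y + x * P2) +
    (G 1 * B 3 - G 3 * B 1) * P1 * P2 + ((m + 2 : ℕ) : A) * b 0 * P1 * P2 + b 1 * P1 +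
    b 2 * P2), ?_⟩
  apply mul_left_cancel₀ hp0
  rw [hz, mul_pow] at hS
  have e : ((m + 2 : ℕ) : A) ^ (m + 2) = ((m + 2 : ℕ) : A) * (((m + 2 : ℕ) : A) *
      ((m + 2 : ℕ) : A) ^ m) := by ring
  rw [e] at hS
  linear_combination -hS

/-! ### the relation in the residue field -/

/-- The part of the polynomial that depends on `T ^ p` only. -/
def Sp {k : Type} [Field k] (G B α β c : Fin 4 → k) : k[X] :=
  X * (C (c 0) * ((C (G 0) + C (B 0) * X) * (C (G 2) + C (B 2) * X)) +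
      C (c 1) * ((C (G 0) + C (B 0) * X) * (C (G 3) + C (B 3) * X)) +
      C (c 2) * ((C (G 1) + C (B 1) * X) * (C (G 2) + C (B 2) * X)) +
      C (c 3) * ((C (G 1) + C (B 1) * X) * (C (G 3) + C (B 3) * X))) -
    ((C (B 2) * (C (G 3) + C (B 3) * X) - C (B 3) * (C (G 2) + C (B 2) * X)) *
      ((C (α 0) * X + C (β 0)) * (C (G 1) + C (B 1) * X) -
        (C (G 0) + C (B 0) * X) * (C (α 1) * X + C (β 1))) -
    (C (B 0) * (C (G 1) + C (B 1) * X) - C (B 1) * (C (G 0) + C (B 0) * X)) *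
      ((C (α 2) * X + C (β 2)) * (C (G 3) + C (B 3) * X) -
        (C (G 2) + C (B 2) * X) * (C (α 3) * X + C (β 3))))

lemma Sp_eval {k : Type} [Field k] (G B α β c : Fin 4 → k) (w : k) : (Sp G B α β c).eval w =
    w * (c 0 * ((G 0 + B 0 * w) * (G 2 + B 2 * w)) + c 1 * ((G 0 + B 0 * w) * (G 3 + B 3 * w)) +
      c 2 * ((G 1 + B 1 * w) * (G 2 + B 2 * w)) + c 3 * ((G 1 + B 1 * w) * (G 3 + B 3 * w))) -
    ((B 2 * (G 3 + B 3 * w) - B 3 * (G 2 + B 2 * w)) *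
      ((α 0 * w + β 0) * (G 1 + B 1 * w) - (G 0 + B 0 * w) * (α 1 * w + β 1)) -
    (B 0 * (G 1 + B 1 * w) - B 1 * (G 0 + B 0 * w)) *
      ((α 2 * w + β 2) * (G 3 + B 3 * w) - (G 2 + B 2 * w) * (α 3 * w + β 3))) := by
  unfold Sp
  simp only [eval_add, eval_sub, eval_mul, eval_C, eval_X]

lemma pinj {k : Type} [Field k] {p : ℕ} (hp : p.Prime) [CharP k p] {a b : k}
    (h : a ^ p = b ^ p) : a = b := by
  have := Fact.mk hp
  have h1 : (a - b) ^ p = 0 := by rw [sub_pow_char, h, sub_self]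
  exact sub_eq_zero.mp (pow_eq_zero_iff hp.ne_zero |>.mp h1)

lemma keval {k : Type} [Field k] {p : ℕ} (hp : p.Prime) [CharP k p] (Q : MvPolynomial (Fin 4) ℤ)
    (hom : ∀ (s : k) (u : Fin 4 → k),
      MvPolynomial.aeval (fun i => s * u i) Q = s ^ p * MvPolynomial.aeval u Q)
    (G B G' B' α β c f u : Fin 4 → k) (hG : ∀ i, G' i ^ p = G i) (hB : ∀ i, B' i ^ p = B i)
    (l Y : Fin 4 → k[X]) (hl : ∀ i, l i = C (G' i) + C (B' i) * X)
    (hY0 : Y 0 = C (G' 1 * B' 3 - G' 3 * B' 1) * l 0 * l 2)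
    (hY1 : Y 1 = C (G' 2 * B' 1 - G' 1 * B' 2) * l 0 * l 3)
    (hY2 : Y 2 = C (G' 3 * B' 0 - G' 0 * B' 3) * l 1 * l 2)
    (hY3 : Y 3 = C (G' 0 * B' 2 - G' 2 * B' 0) * l 1 * l 3)
    (t w x y x1 y1 : k) (hw : t ^ p = w)
    (hx : x * (G 1 + B 1 * w) = G 0 + B 0 * w) (hy : y * (G 3 + B 3 * w) = G 2 + B 2 * w)
    (hx1 : x1 ^ p = x) (hy1 : y1 ^ p = y) (hf : ∀ i, w * f i = α i * w + β i)
    (hu0 : u 0 = (G' 1 * B' 3 - G' 3 * B' 1) * x1 * y1) (hu1 : u 1 = (G' 2 * B' 1 - G' 1 * B' 2) * x1)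
    (hu2 : u 2 = (G' 3 * B' 0 - G' 0 * B' 3) * y1) (hu3 : u 3 = G' 0 * B' 2 - G' 2 * B' 0)
    (hrel : -((B 2 - y * B 3) * (f 0 - x * f 1) - (B 0 - x * B 1) * (f 2 - y * f 3)) +
       (c 0 * x * y + c 1 * x + c 2 * y + c 3) + MvPolynomial.aeval u Q = 0) :
    ((Sp G B α β c).comp (X ^ p) + X ^ p * MvPolynomial.aeval Y Q).eval t = 0 := by
  have := Fact.mk hp
  have hL : ∀ i, (G' i + B' i * t) ^ p = G i + B i * w := by
    intro i
    rw [add_pow_char, mul_pow, hG, hB, hw]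
  have e1 : x1 * (G' 1 + B' 1 * t) = G' 0 + B' 0 * t := by
    apply pinj hp
    rw [mul_pow, hL, hL, hx1, hx]
  have e2 : y1 * (G' 3 + B' 3 * t) = G' 2 + B' 2 * t := by
    apply pinj hp
    rw [mul_pow, hL, hL, hy1, hy]
  have hYe : (fun i => ((G' 1 + B' 1 * t) * (G' 3 + B' 3 * t)) * u i) =
      fun i => (Y i).eval t := by
    funext i
    fin_cases i
    · show ((G' 1 + B' 1 * t) * (G' 3 + B' 3 * t)) * u 0 = (Y 0).eval t
      rw [hu0, hY0, hl, hl]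
      simp only [eval_add, eval_mul, eval_C, eval_X]
      rw [← e1, ← e2]
      ring
    · show ((G' 1 + B' 1 * t) * (G' 3 + B' 3 * t)) * u 1 = (Y 1).eval t
      rw [hu1, hY1, hl, hl]
      simp only [eval_add, eval_mul, eval_C, eval_X]
      rw [← e1]
      ring
    · show ((G' 1 + B' 1 * t) * (G' 3 + B' 3 * t)) * u 2 = (Y 2).eval t
      rw [hu2, hY2, hl, hl]
      simp only [eval_add, eval_mul, eval_C, eval_X]
      rw [← e2]
      ring
    · show ((G' 1 + B' 1 * t) * (G' 3 + B' 3 * t)) * u 3 = (Y 3).eval t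
      rw [hu3, hY3, hl, hl]
      simp only [eval_add, eval_mul, eval_C, eval_X]
      ring
  have hev : (MvPolynomial.aeval Y Q).eval t = MvPolynomial.aeval (fun i => (Y i).eval t) Q :=
    Qmap (evalRingHom t) Q Y
  rw [eval_add, eval_mul, eval_comp, eval_pow, eval_X, hw, hev, ← hYe, hom, mul_pow, hL, hL,
    Sp_eval, ← hx, ← hy, ← hf 0, ← hf 1, ← hf 2, ← hf 3]
  linear_combination (w * ((G 1 + B 1 * w) * (G 3 + B 3 * w))) * hrel

end

end Pool.Agent.ZPK.H81
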